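import Pool.Agent.Helper18.PB.Defs

/-! F3: strict convexity. -/

set_option autoImplicit false

open MeasureTheory Measure

namespace Pool.Agent.Helper64.PB

open Pool.Agent.Helper18.PB

theorem f3 : GStrict := by
  intro n M a c b hc hd hs Y _ _ L hL
  have hsum : ∀ x : EuclideanSpace ℝ (Fin n), Summable (fun k => c k * |inner ℝ (a k) x|) := by
    intro x
    refine Summable.of_nonneg_of_le (fun k => mul_nonneg (hc k).le (abs_nonneg _)) (fun k => ?_)
      (hs.mul_right ‖x‖)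
    calc c k * |inner ℝ (a k) x| ≤ c k * (‖a k‖ * ‖x‖) :=
          mul_le_mul_of_nonneg_left (abs_real_inner_le_norm _ _) (hc k).le
      _ = c k * ‖a k‖ * ‖x‖ := by ring
  apply StrictConvexSpace.of_norm_add
  intro X1 X2 h1 h2 h12
  obtain ⟨x, rfl⟩ := L.surjective X1
  obtain ⟨y, rfl⟩ := L.surjective X2
  rw [← map_add, hL] at h12
  rw [hL] at h1 h2
  have hx0 : x ≠ 0 := by
    rintro rfl
    unfold nrm at h1
    have : (fun i : Fin M => (inner ℝ (b i) (0 : EuclideanSpace ℝ (Fin n)) : ℝ)) = 0 := by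
      funext i
      simp
    rw [this] at h1
    simp at h1
  have hy0 : y ≠ 0 := by
    rintro rfl
    unfold nrm at h2
    have : (fun i : Fin M => (inner ℝ (b i) (0 : EuclideanSpace ℝ (Fin n)) : ℝ)) = 0 := by
      funext i
      simp
    rw [this] at h2
    simp at h2
  have hP : ‖(fun i : Fin M => (inner ℝ (b i) (x + y) : ℝ))‖ ≤
      ‖(fun i : Fin M => (inner ℝ (b i) x : ℝ))‖ + ‖(fun i : Fin M => (inner ℝ (b i) y : ℝ))‖ := by
    have : (fun i : Fin M => (inner ℝ (b i) (x + y) : ℝ)) =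
        (fun i : Fin M => (inner ℝ (b i) x : ℝ)) + (fun i : Fin M => (inner ℝ (b i) y : ℝ)) := by
      funext i
      rw [Pi.add_apply, inner_add_right]
    rw [this]
    exact norm_add_le _ _
  set d : ℕ → ℝ := fun k => c k * |inner ℝ (a k) x| + c k * |inner ℝ (a k) y| -
    c k * |inner ℝ (a k) (x + y)| with hdd
  have hd0 : ∀ k, 0 ≤ d k := by
    intro k
    have : |inner ℝ (a k) (x + y)| ≤ |inner ℝ (a k) x| + |inner ℝ (a k) y| := by
      rw [inner_add_right]
      exact abs_add_le _ _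
    have h3 := mul_le_mul_of_nonneg_left this (hc k).le
    rw [mul_add] at h3
    show 0 ≤ c k * |inner ℝ (a k) x| + c k * |inner ℝ (a k) y| - c k * |inner ℝ (a k) (x + y)|
    linarith
  have hdS : HasSum d ((∑' k, c k * |inner ℝ (a k) x|) + (∑' k, c k * |inner ℝ (a k) y|) -
      ∑' k, c k * |inner ℝ (a k) (x + y)|) :=
    ((hsum x).hasSum.add (hsum y).hasSum).sub (hsum (x + y)).hasSum
  have htot : (∑' k, c k * |inner ℝ (a k) x|) + (∑' k, c k * |inner ℝ (a k) y|) -
      (∑' k, c k * |inner ℝ (a k) (x + y)|) = 0 := by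
    have hn : 0 ≤ (∑' k, c k * |inner ℝ (a k) x|) + (∑' k, c k * |inner ℝ (a k) y|) -
      (∑' k, c k * |inner ℝ (a k) (x + y)|) := by
      rw [← hdS.tsum_eq]
      exact tsum_nonneg hd0
    unfold nrm at h1 h2 h12
    linarith
  rw [htot] at hdS
  have hdz : d = 0 := (hasSum_zero_iff_of_nonneg hd0).mp hdS
  have hk : ∀ k, |inner ℝ (a k) (x + y)| = |inner ℝ (a k) x| + |inner ℝ (a k) y| := by
    intro k
    have h3 : c k * |inner ℝ (a k) x| + c k * |inner ℝ (a k) y| -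
      c k * |inner ℝ (a k) (x + y)| = 0 := congrFun hdz k
    have h4 : c k * (|inner ℝ (a k) x| + |inner ℝ (a k) y| - |inner ℝ (a k) (x + y)|) = 0 := by
      linarith
    rcases mul_eq_zero.mp h4 with h5 | h5
    · exact absurd h5 (hc k).ne'
    · linarith
  have hall : ∀ v : EuclideanSpace ℝ (Fin n),
      |inner ℝ v (x + y)| = |inner ℝ v x| + |inner ℝ v y| := by
    intro v
    refine hd.induction_on (p := fun v => |inner ℝ v (x + y)| = |inner ℝ v x| + |inner ℝ v y|)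
      v ?_ hk
    apply isClosed_eq
    · fun_prop
    · fun_prop
  have hv := hall (‖y‖ • x - ‖x‖ • y)
  rw [inner_add_right] at hv
  have e1 : inner ℝ (‖y‖ • x - ‖x‖ • y) x = ‖x‖ * (‖x‖ * ‖y‖ - inner ℝ x y) := by
    rw [inner_sub_left, real_inner_smul_left, real_inner_smul_left, real_inner_self_eq_norm_sq,
      real_inner_comm x y]
    ring
  have e2 : inner ℝ (‖y‖ • x - ‖x‖ • y) y = -(‖y‖ * (‖x‖ * ‖y‖ - inner ℝ x y)) := by
    rw [inner_sub_left, real_inner_smul_left, real_inner_smul_left, real_inner_self_eq_norm_sq]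
    ring
  have hD : 0 ≤ ‖x‖ * ‖y‖ - inner ℝ x y := sub_nonneg.mpr (real_inner_le_norm x y)
  have hxp : 0 < ‖x‖ := norm_pos_iff.mpr hx0
  have hyp : 0 < ‖y‖ := norm_pos_iff.mpr hy0
  rw [e1, e2] at hv
  have hD0 : ‖x‖ * ‖y‖ - inner ℝ x y = 0 := by
    by_contra hne
    have hDp : 0 < ‖x‖ * ‖y‖ - inner ℝ x y := lt_of_le_of_ne hD (Ne.symm hne)
    have p1 : 0 < ‖x‖ * (‖x‖ * ‖y‖ - inner ℝ x y) := mul_pos hxp hDp
    have p2 : 0 < ‖y‖ * (‖x‖ * ‖y‖ - inner ℝ x y) := mul_pos hyp hDp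
    rw [abs_of_pos p1, abs_neg, abs_of_pos p2] at hv
    rcases abs_cases (‖x‖ * (‖x‖ * ‖y‖ - inner ℝ x y) + -(‖y‖ * (‖x‖ * ‖y‖ - inner ℝ x y)))
      with h | h
    · rw [h.1] at hv
      linarith
    · rw [h.1] at hv
      linarith
  have hin : inner ℝ x y = ‖x‖ * ‖y‖ := by linarith
  have hsr : SameRay ℝ x y := by
    rw [sameRay_iff_norm_smul_eq]
    exact (inner_eq_norm_mul_iff_real.mp hin).symm
  exact hsr.map L.toLinearMap

end Pool.Agent.Helper64.PB
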